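import Pool.Agent.AVE.Asym

set_option autoImplicit false

/-!
# MP_289501_co, parts (a) and (b): a local criterion for the Weak and the Reverse Weak game

`Pool.Agent.AVE.BWin F k U Y` is the Weak game, with Maker to move: `U` is the set of unselected
points, `Y` the set of points of Breaker and `k` the number of rounds left.
`Pool.Agent.AVB.AWin F k U Y` is the Reverse Weak game, with Forcer to move: `U` is the set of
unselected points, `Y` the set of points of Forcer and `k` the number of rounds left.  The whole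
games on the board `U` are `BWin F (U.card / 2) U ∅` and `AWin F (U.card / 2) U ∅`: after
`U.card / 2` rounds at most one point is left, and it goes to the first player.
-/

namespace Pool.Agent.Results.MP_289501_co.BreakerAvoiderLocal

open Finset Pool.Agent.AVB Pool.Agent.AVE

theorem result :
    (∀ (V : Type) [DecidableEq V] (d J n : ℕ), 1 ≤ d → 1 ≤ J →
      (34 * d * J ^ 2 < n ∨ 173 * d * J * (Nat.log 2 J + 2) ^ 2 < n) →
      ∀ (U : Finset V) (F : Finset (Finset V)), (∀ A ∈ F, A ⊆ U) → (∀ A ∈ F, n ≤ A.card) →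
        (∀ A ∈ F, (F.filter fun B => B ≠ A ∧ ¬ Disjoint A B).card < 2 ^ d) →
        F.card ≤ 2 ^ (d * 4 ^ J) →
        BWin F (U.card / 2) U ∅ ∧ AWin F (U.card / 2) U ∅) ∧
    (∀ δ ε : ℝ, 0 < δ → δ < ε → ε ≤ 1 → ∃ n₀ : ℕ, ∀ n : ℕ, n₀ ≤ n →
      ∀ (V : Type) [DecidableEq V] (U : Finset V) (F : Finset (Finset V)), (∀ A ∈ F, A ⊆ U) →
        (∀ A ∈ F, n ≤ A.card) →
        (∀ A ∈ F, ((F.filter fun B => B ≠ A ∧ ¬ Disjoint A B).card : ℝ) ≤
          2 ^ ((n : ℝ) ^ (1 - ε))) →
        ((F.card : ℝ) ≤ 2 ^ ((2 : ℝ) ^ ((n : ℝ) ^ δ))) →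
        BWin F (U.card / 2) U ∅ ∧ AWin F (U.card / 2) U ∅) :=
  ⟨fun _ _ _ _ _ hd hJ hn U F hU hcard hdeg hF => draw2 hd hJ hn U F hU hcard hdeg hF,
    fun _ _ hδ hδε hε => draw_asymptotic hδ hδε hε⟩

end Pool.Agent.Results.MP_289501_co.BreakerAvoiderLocal
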