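import Pool.Agent.H84NB.Core

set_option autoImplicit false

/-!
# MP_289501_co, part (a): a local criterion for the Weak (Maker-Breaker) game

For all sufficiently large `n`, Breaker (the second player) has a Strong Draw in the
Maker-Breaker game on every finite `n`-uniform hypergraph in which every winning set meets at
most `exp (√n / (12 log n))` other winning sets.  The predicate `Pool.Agent.H84NB.Draw F U B` is
the game, with Maker to move: `U` is the set of unselected points and `B` the set of points taken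
by Breaker.
-/

namespace Pool.Agent.Results.MP_289501_co.BreakerLocal

open Finset Pool.Agent.H84NB

/-- the parameters fit for large `n` -/
theorem exists_large : ∃ n₀ : ℕ, ∀ n : ℕ, n₀ ≤ n →
    2 ≤ n ∧ 100 ≤ Real.log n ∧ Real.log n ^ 4 ≤ √(n : ℝ) := by
  have h1 : ∀ᶠ n : ℕ in Filter.atTop, (100 : ℝ) ≤ Real.log n :=
    (Real.tendsto_log_atTop.comp tendsto_natCast_atTop_atTop).eventually_ge_atTop 100
  have h2 : ∀ᶠ n : ℕ in Filter.atTop, Real.log n ^ 8 ≤ (n : ℝ) := by
    have h3 : (fun x : ℝ => Real.log x ^ 8) =o[Filter.atTop] (id : ℝ → ℝ) :=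
      Real.isLittleO_pow_log_id_atTop
    have h4 := h3.bound (show (0 : ℝ) < 1 by norm_num)
    have h5 := tendsto_natCast_atTop_atTop (R := ℝ) |>.eventually h4
    filter_upwards [h5] with n hn
    simp only [id, one_mul, Real.norm_eq_abs] at hn
    have hn' := (le_abs_self _).trans hn
    rwa [abs_of_nonneg (Nat.cast_nonneg n : (0 : ℝ) ≤ n)] at hn'
  obtain ⟨n₀, hn₀⟩ := Filter.eventually_atTop.1 (h1.and (h2.and (Filter.eventually_ge_atTop 2)))
  refine ⟨n₀, fun n hn => ?_⟩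
  obtain ⟨a, b, c⟩ := hn₀ n hn
  refine ⟨c, a, ?_⟩
  refine Real.le_sqrt_of_sq_le ?_
  calc (Real.log n ^ 4) ^ 2 = Real.log n ^ 8 := by ring
    _ ≤ (n : ℝ) := b

/-- Breaker's strong draw under a degree condition -/
theorem of_degree : ∃ n₀ : ℕ, ∀ n : ℕ, n₀ ≤ n →
    ∀ (V : Type) [Fintype V] [DecidableEq V] (F : Finset (Finset V)), (∀ A ∈ F, A.card = n) →
      (∀ z : V, ((F.filter fun A => z ∈ A).card : ℝ) ≤
        Real.exp (√(n : ℝ) / (12 * Real.log n)) + 1) → Draw F univ ∅ := by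
  obtain ⟨n₀, hn₀⟩ := exists_large
  refine ⟨n₀, fun n hn V _ _ F hF hdeg => ?_⟩
  obtain ⟨h2, hL, hs⟩ := hn₀ n hn
  set L := Real.log n with hLdef
  set s := √(n : ℝ) with hsdef
  set x := s / (12 * L) with hx
  have hL0 : 0 < L := by linarith
  have hL3 : (10 : ℝ) ^ 6 ≤ L ^ 3 := by
    calc (10 : ℝ) ^ 6 = 100 ^ 3 := by norm_num
      _ ≤ L ^ 3 := pow_le_pow_left₀ (by norm_num) hL 3
  have hsL : L * 10 ^ 6 ≤ s := by
    calc L * 10 ^ 6 ≤ L * L ^ 3 := mul_le_mul_of_nonneg_left hL3 hL0.le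
      _ = L ^ 4 := by ring
      _ ≤ s := hs
  have hs0 : 0 < s := by linarith
  have hx0 : 0 < x := div_pos hs0 (by linarith)
  have hss : s * s = n := Real.mul_self_sqrt (Nat.cast_nonneg n)
  have hl2 : (0.6931 : ℝ) < Real.log 2 := by
    have := Real.log_two_gt_d9
    linarith
  have hexp1 : (1 : ℝ) ≤ Real.exp x := Real.one_le_exp hx0.le
  set Δ := ⌊Real.exp x⌋₊ + 1 with hΔ
  have hΔdeg : ∀ z : V, (F.filter fun A => z ∈ A).card ≤ Δ := by
    intro z
    have h1 := hdeg z
    by_contra hcon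
    push Not at hcon
    have h3 : ((F.filter fun A => z ∈ A).card - 1 : ℕ) ≤ ⌊Real.exp x⌋₊ := by
      refine Nat.le_floor ?_
      have : 1 ≤ (F.filter fun A => z ∈ A).card := by omega
      rw [Nat.cast_sub this]
      push_cast
      linarith
    omega
  set b := ⌈x / Real.log 2⌉₊ + 2 with hb
  have hb2 : 2 * Δ ≤ 2 ^ b := by
    have h1 : (Δ : ℝ) ≤ 2 * Real.exp x := by
      rw [hΔ]
      push_cast
      have := Nat.floor_le (Real.exp_pos x).le
      linarith
    have h3 : Real.exp x ≤ 2 ^ ⌈x / Real.log 2⌉₊ := by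
      have h4 : x ≤ ⌈x / Real.log 2⌉₊ * Real.log 2 := by
        have := Nat.le_ceil (x / Real.log 2)
        rwa [div_le_iff₀ (by linarith)] at this
      calc Real.exp x ≤ Real.exp (⌈x / Real.log 2⌉₊ * Real.log 2) := Real.exp_le_exp.2 h4
        _ = 2 ^ ⌈x / Real.log 2⌉₊ := by
          rw [mul_comm, Real.exp_mul, Real.exp_log (by norm_num), Real.rpow_natCast]
    have h5 : (2 : ℝ) * Δ ≤ 2 ^ b := by
      rw [hb, pow_add]
      linarith
    exact_mod_cast h5
  set J := Nat.log 2 n + 2 with hJ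
  have hJL : (J : ℝ) ≤ 1.47 * L := by
    have h1 : (2 : ℝ) ^ Nat.log 2 n ≤ n := by
      exact_mod_cast Nat.pow_log_le_self 2 (by omega)
    have h3 : (Nat.log 2 n : ℝ) * Real.log 2 ≤ L := by
      have := Real.log_le_log (by positivity) h1
      rwa [Real.log_pow] at this
    have h4 : (Nat.log 2 n : ℝ) * 0.6931 ≤ L :=
      (mul_le_mul_of_nonneg_left hl2.le (Nat.cast_nonneg _)).trans h3
    rw [hJ]
    push_cast
    linarith
  have hxL : x ≤ 0.08334 * (s / L) := by
    have e : x = 1 / 12 * (s / L) := by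
      rw [hx]
      field_simp
    rw [e]
    have : 0 < s / L := div_pos hs0 hL0
    nlinarith
  have hsL' : (10 : ℝ) ^ 6 ≤ s / L := by
    rw [le_div_iff₀ hL0]
    linarith
  have hbs : (b : ℝ) ≤ 0.121 * (s / L) := by
    have h1 : (⌈x / Real.log 2⌉₊ : ℝ) ≤ x / Real.log 2 + 1 := (Nat.ceil_lt_add_one (by positivity)).le
    have h3 : x / Real.log 2 ≤ x / 0.6931 :=
      div_le_div_of_nonneg_left hx0.le (by norm_num) hl2.le
    have h4 : x / 0.6931 ≤ 0.12025 * (s / L) := by
      rw [div_le_iff₀ (by norm_num)]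
      nlinarith
    rw [hb]
    push_cast
    linarith
  refine core (n := n) (b := b) hJ (by omega) hb2 ?_ F hF hΔdeg
  have hgoal : 8 * (J : ℝ) ^ 2 * (4 * J + 3 * b) * b + (4 * J + 3 * b) + 1 ≤ n := by
    have hJ0 : (0 : ℝ) ≤ J := Nat.cast_nonneg _
    have hb0 : (0 : ℝ) ≤ b := Nat.cast_nonneg _
    set q := s / L with hq
    have hq0 : 0 < q := by linarith
    have hqL : q * L = s := by
      rw [hq]
      field_simp
    have e1 : (J : ℝ) * b ≤ 0.17787 * s := by
      calc (J : ℝ) * b ≤ (1.47 * L) * (0.121 * q) := mul_le_mul hJL hbs hb0 (by positivity)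
        _ = 0.17787 * (q * L) := by ring
        _ = _ := by rw [hqL]
    have e2 : ((J : ℝ) * b) ^ 2 ≤ 0.0317 * n := by
      calc ((J : ℝ) * b) ^ 2 ≤ (0.17787 * s) ^ 2 := pow_le_pow_left₀ (by positivity) e1 2
        _ = 0.17787 ^ 2 * n := by rw [mul_pow, sq s, hss]
        _ ≤ _ := by
          refine mul_le_mul_of_nonneg_right (by norm_num) (Nat.cast_nonneg n)
    have e3 : (J : ℝ) ^ 2 ≤ 2.161 * L ^ 2 := by
      calc (J : ℝ) ^ 2 ≤ (1.47 * L) ^ 2 := pow_le_pow_left₀ hJ0 hJL 2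
        _ = 1.47 ^ 2 * L ^ 2 := by ring
        _ ≤ _ := mul_le_mul_of_nonneg_right (by norm_num) (by positivity)
    have e4 : L ^ 2 ≤ s / 10 ^ 4 := by
      rw [le_div_iff₀ (by norm_num)]
      have h6 : (100 : ℝ) ^ 2 ≤ L ^ 2 := pow_le_pow_left₀ (by norm_num) hL 2
      have h7 : L ^ 2 * 100 ^ 2 ≤ L ^ 2 * L ^ 2 := mul_le_mul_of_nonneg_left h6 (by positivity)
      have h8 : L ^ 2 * L ^ 2 = L ^ 4 := by ring
      linarith
    have e5 : (J : ℝ) ^ 2 * (J * b) ≤ 0.0001 * n := by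
      calc (J : ℝ) ^ 2 * (J * b) ≤ (2.161 * (s / 10 ^ 4)) * (0.17787 * s) := by
            refine mul_le_mul (e3.trans ?_) e1 (by positivity) (by positivity)
            exact mul_le_mul_of_nonneg_left e4 (by norm_num)
        _ = 2.161 / 10 ^ 4 * 0.17787 * (s * s) := by ring
        _ ≤ _ := by
          rw [hss]
          exact mul_le_mul_of_nonneg_right (by norm_num) (Nat.cast_nonneg n)
    have e6 : s ≤ n / 10 ^ 6 := by
      rw [le_div_iff₀ (by norm_num), ← hss]
      have h6 : (10 : ℝ) ^ 6 ≤ s := by linarith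
      exact mul_le_mul_of_nonneg_left h6 hs0.le
    have e7 : (J : ℝ) ≤ s := by
      linarith
    have e8 : (b : ℝ) ≤ s := by
      have : q ≤ s := by
        rw [hq]
        exact div_le_self hs0.le (by linarith)
      linarith
    have e9 : (1 : ℝ) ≤ s := by linarith
    have e10 : 8 * (J : ℝ) ^ 2 * (4 * J + 3 * b) * b + (4 * J + 3 * b) + 1 =
        32 * ((J : ℝ) ^ 2 * (J * b)) + 24 * ((J : ℝ) * b) ^ 2 + (4 * J + 3 * b) + 1 := by ring
    rw [e10]
    linarith
  exact_mod_cast hgoal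

theorem result : ∃ n₀ : ℕ, ∀ n : ℕ, n₀ ≤ n →
    ∀ (V : Type) [Fintype V] [DecidableEq V] (F : Finset (Finset V)), (∀ A ∈ F, A.card = n) →
      (∀ A ∈ F, ((F.filter fun B => B ≠ A ∧ ¬ Disjoint A B).card : ℝ) ≤
        Real.exp (√(n : ℝ) / (12 * Real.log n))) →
      Draw F univ ∅ := by
  obtain ⟨n₀, h₀⟩ := of_degree
  refine ⟨n₀, fun n hn V _ _ F hF hmeet => h₀ n hn V F hF fun z => ?_⟩
  rcases Finset.eq_empty_or_nonempty (F.filter fun A => z ∈ A) with he | ⟨A, hA⟩
  · rw [he]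
    simp only [card_empty, Nat.cast_zero]
    positivity
  · obtain ⟨hA1, hA2⟩ := Finset.mem_filter.1 hA
    have h1 : (F.filter fun B => z ∈ B) ⊆
        insert A (F.filter fun B => B ≠ A ∧ ¬ Disjoint A B) := by
      intro B hB
      obtain ⟨hB1, hB2⟩ := Finset.mem_filter.1 hB
      rw [Finset.mem_insert, Finset.mem_filter]
      by_cases hBA : B = A
      · exact Or.inl hBA
      · exact Or.inr ⟨hB1, hBA, fun hdis => Finset.disjoint_left.1 hdis hA2 hB2⟩
    have h2 := (Finset.card_le_card h1).trans (Finset.card_insert_le _ _)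
    have h3 := hmeet A hA1
    have h4 : ((F.filter fun B => z ∈ B).card : ℝ) ≤
        ((F.filter fun B => B ≠ A ∧ ¬ Disjoint A B).card : ℝ) + 1 := by exact_mod_cast h2
    linarith

end Pool.Agent.Results.MP_289501_co.BreakerLocal
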