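import Pool.Agent.H87CP.Core

set_option autoImplicit false

/-!
# MP_289501_co, part (c): an exponential local criterion for the Chooser-Picker game

Picker has a Strong Draw in the Chooser-Picker game on every finite family of sets with at least
`n` points in which every set meets at most `D` others, if `e (D ^ 2 + 1) ≤ φ ^ (n - 1)` (`φ` is
the golden ratio), or if `n ≥ 64` and `D ≤ 2 ^ (n / 2 - √(n log n))`.  There is no bound on the
number of sets, and the sets may overlap arbitrarily.  The predicate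
`Pool.Agent.ChPi.Draw F U P` is the game: `U` is the set of unselected points and `P` the set of
points Picker has received.
-/

namespace Pool.Agent.Results.MP_289501_co.ChooserPickerExponential

open Finset Pool.Agent.H64MD Pool.Agent.H87CP

/-- the second neighbourhood of a set has at most `D ^ 2` members -/
theorem card_G2_le {V : Type} [DecidableEq V] {F : Finset (Finset V)} {D : ℕ}
    (hmeet : ∀ A ∈ F, (F.filter fun B => B ≠ A ∧ ¬ Disjoint A B).card ≤ D)
    (A : {A : Finset V // A ∈ F}) :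
    (univ.filter fun B => (G2 F).Adj A B).card ≤ D ^ 2 := by
  set nb : Finset V → Finset (Finset V) := fun C => F.filter fun B => B ≠ C ∧ ¬ Disjoint C B
    with hnb
  have hsub : (univ.filter fun B => (G2 F).Adj A B).image Subtype.val ⊆
      nb A.1 ∪ (nb A.1).biUnion fun C => (nb C).erase A.1 := by
    intro B hB
    obtain ⟨B', hB', rfl⟩ := mem_image.1 hB
    obtain ⟨hne, C, hC, h1, h2⟩ := (mem_filter.1 hB').2
    have hne' : B'.1 ≠ A.1 := fun e => hne (Subtype.ext e.symm)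
    by_cases h3 : Disjoint A.1 B'.1
    · refine mem_union_right _ (mem_biUnion.2 ⟨C, mem_filter.2 ⟨hC, ?_, h1⟩, mem_erase.2
        ⟨hne', mem_filter.2 ⟨B'.2, ?_, fun h => h2 h.symm⟩⟩⟩)
      · rintro rfl
        exact h2 h3.symm
      · rintro rfl
        exact h1 h3
    · exact mem_union_left _ (mem_filter.2 ⟨B'.2, hne', h3⟩)
  rw [← card_image_of_injective _ Subtype.val_injective]
  refine (card_le_card hsub).trans ((card_union_le _ _).trans ?_)
  have h1 : (nb A.1).card ≤ D := hmeet A.1 A.2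
  have h2 : ((nb A.1).biUnion fun C => (nb C).erase A.1).card ≤ (nb A.1).card * (D - 1) := by
    refine card_biUnion_le_card_mul _ _ _ fun C hC => ?_
    obtain ⟨hCF, hCA, hCd⟩ := mem_filter.1 hC
    have h3 : A.1 ∈ nb C := mem_filter.2 ⟨A.2, Ne.symm hCA, fun h => hCd h.symm⟩
    rw [card_erase_of_mem h3]
    exact Nat.sub_le_sub_right (hmeet C hCF) 1
  have h3 : (nb A.1).card * (D - 1) ≤ D * (D - 1) := Nat.mul_le_mul_right _ h1
  rcases Nat.eq_zero_or_pos D with h4 | h4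
  · subst h4
    simp only [Nat.zero_mul] at h3
    omega
  · obtain ⟨d, rfl⟩ : ∃ d, D = d + 1 := ⟨D - 1, by omega⟩
    have h5 : (d + 1) ^ 2 = (d + 1) + (d + 1) * (d + 1 - 1) := by
      rw [Nat.add_sub_cancel]
      ring
    omega

theorem inv_exp_le (N : ℕ) : 1 ≤ Real.exp 1 * (1 - 1 / ((N : ℝ) + 1)) ^ N := by
  rcases Nat.eq_zero_or_pos N with h | h
  · subst h
    rw [pow_zero, mul_one]
    exact Real.one_le_exp (by norm_num)
  · have hN : (0 : ℝ) < N := by exact_mod_cast h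
    have h1 : (1 : ℝ) + 1 / N ≤ Real.exp (1 / N) := by
      have := Real.add_one_le_exp (1 / (N : ℝ))
      linarith
    have h2 : (1 + 1 / (N : ℝ)) ^ N ≤ Real.exp 1 := by
      calc (1 + 1 / (N : ℝ)) ^ N ≤ Real.exp (1 / N) ^ N :=
            pow_le_pow_left₀ (by positivity) h1 N
        _ = Real.exp 1 := by
            rw [← Real.exp_nat_mul]
            congr 1
            field_simp
    have h3 : (1 + 1 / (N : ℝ)) * (1 - 1 / ((N : ℝ) + 1)) = 1 := by
      field_simp
      ring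
    have h4 : 0 ≤ 1 - 1 / ((N : ℝ) + 1) := by
      rw [sub_nonneg, div_le_one (by positivity)]
      linarith
    calc (1 : ℝ) = ((1 + 1 / (N : ℝ)) * (1 - 1 / ((N : ℝ) + 1))) ^ N := by rw [h3, one_pow]
      _ = (1 + 1 / (N : ℝ)) ^ N * (1 - 1 / ((N : ℝ) + 1)) ^ N := mul_pow _ _ _
      _ ≤ _ := mul_le_mul_of_nonneg_right h2 (pow_nonneg h4 N)

/-- the criterion with its parameters -/
theorem criterion (n k₀ k₁ D : ℕ) (η : ℝ) (hη : 0 < η) (hk0 : 1 ≤ k₀)
    (hk : η ^ k₁ * (1 + η) ≤ 1 - η)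
    (hg : ∀ k, k₀ < k → k ≤ k₁ → η ^ (k - 1) * (1 + η) ^ k ≤ (1 + η) ^ k₀)
    (hD : Real.exp 1 * ((D : ℝ) ^ 2 + 1) * (1 + η) ^ k₀ ≤ (1 + η) ^ n)
    (V : Type) [Fintype V] [DecidableEq V] (F : Finset (Finset V)) (hF : ∀ A ∈ F, n ≤ A.card)
    (hmeet : ∀ A ∈ F, (F.filter fun B => B ≠ A ∧ ¬ Disjoint A B).card ≤ D) :
    Pool.Agent.ChPi.Draw F univ ∅ := by
  refine draw (F := F) hη hk0 hk hg univ.card univ ∅ le_rfl ?_
  have hN : (0 : ℝ) < (D : ℝ) ^ 2 + 1 := by positivity
  have hcast : (((D ^ 2 : ℕ) : ℝ) + 1) = (D : ℝ) ^ 2 + 1 := by push_cast; ring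
  have hx1 : 1 / ((D : ℝ) ^ 2 + 1) < 1 ∨ D = 0 := by
    rcases Nat.eq_zero_or_pos D with h | h
    · exact Or.inr h
    · left
      have : (0 : ℝ) < D := by exact_mod_cast h
      rw [div_lt_one hN]
      have : (0 : ℝ) < (D : ℝ) ^ 2 := by positivity
      linarith
  -- the weights at the start
  have hw : ∀ A : {A : Finset V // A ∈ F}, Real.exp 1 * ((D : ℝ) ^ 2 + 1) *
      wgt η k₀ univ ∅ A ≤ 1 := by
    intro A
    have e : wgt η k₀ univ ∅ A = (1 + η) ^ k₀ * ((1 + η)⁻¹) ^ A.1.card := by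
      unfold wgt
      rw [if_pos (disjoint_empty_right _), inter_univ]
    rw [e, inv_pow, ← mul_assoc, ← div_eq_mul_inv, div_le_one (by positivity)]
    exact hD.trans (pow_le_pow_right₀ (by linarith) (hF A.1 A.2))
  rcases hx1 with hx1 | h0
  · refine reg_of_lll (x := fun _ => 1 / ((D : ℝ) ^ 2 + 1)) (fun v => wgt_nonneg hη.le _ _ _ v)
      (fun _ => by positivity) (fun _ => hx1) fun v => ?_
    rw [prod_const]
    have h4 : 0 ≤ 1 - 1 / ((D : ℝ) ^ 2 + 1) := by linarith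
    have h5 : (1 - 1 / ((D : ℝ) ^ 2 + 1)) ^ (D ^ 2) ≤
        (1 - 1 / ((D : ℝ) ^ 2 + 1)) ^ (univ.filter fun w => (G2 F).Adj v w).card :=
      pow_le_pow_of_le_one h4 (by
        have : 0 ≤ 1 / ((D : ℝ) ^ 2 + 1) := by positivity
        linarith) (card_G2_le hmeet v)
    have h6 := inv_exp_le (D ^ 2)
    rw [hcast] at h6
    have h7 := hw v
    have h8 : wgt η k₀ univ ∅ v ≤
        1 / ((D : ℝ) ^ 2 + 1) * (1 - 1 / ((D : ℝ) ^ 2 + 1)) ^ (D ^ 2) := by
      rw [div_mul_eq_mul_div, one_mul, le_div_iff₀ hN]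
      have h9 : Real.exp 1 * (wgt η k₀ univ ∅ v * ((D : ℝ) ^ 2 + 1)) ≤
          Real.exp 1 * (1 - 1 / ((D : ℝ) ^ 2 + 1)) ^ (D ^ 2) := by linarith
      exact le_of_mul_le_mul_left h9 (Real.exp_pos 1)
    exact h8.trans (mul_le_mul_of_nonneg_left h5 (by positivity))
  · subst h0
    refine reg_of_lll (x := fun _ => 1 / 2) (fun v => wgt_nonneg hη.le _ _ _ v)
      (fun _ => by norm_num) (fun _ => by norm_num) fun v => ?_
    have h5 := card_G2_le hmeet v
    have h6 : (univ.filter fun w => (G2 F).Adj v w).card = 0 := by omega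
    rw [prod_const, h6, pow_zero, mul_one]
    have h7 := hw v
    have h8 : (2 : ℝ) ≤ Real.exp 1 := by
      have := Real.add_one_le_exp (1 : ℝ)
      linarith
    have h9 := wgt_nonneg hη.le k₀ univ ∅ v
    have h10 := mul_le_mul_of_nonneg_right h8 h9
    push_cast at h7
    nlinarith

/-- the values of the parameters for the explicit bound -/
theorem params (n : ℕ) (hn : 64 ≤ n) : ∃ (k₀ : ℕ) (η : ℝ), 0 < η ∧ η ≤ 1 ∧
    η ^ k₀ * (1 + η) ≤ 1 - η ∧
    (k₀ : ℝ) + 5 / 2 ≤ √(n * Real.log n) ∧ √(n * Real.log n) ≤ n / 2 ∧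
    (2 : ℝ) ^ ((n : ℝ) - √(n * Real.log n)) ≤ (1 + η) ^ n := by
  have hn' : (64 : ℝ) ≤ n := by exact_mod_cast hn
  have hn0 : (0 : ℝ) < n := by linarith
  set L := Real.log n with hL
  have hl2 := Real.log_two_gt_d9
  have hl2' := Real.log_two_lt_d9
  have hL6 : 6 * Real.log 2 ≤ L := by
    have h1 : Real.log ((2 : ℝ) ^ 6) ≤ L := Real.log_le_log (by norm_num) (by norm_num; linarith)
    rw [Real.log_pow] at h1
    exact_mod_cast h1
  have hL1 : 1 < L := by linarith
  have hsq : (0 : ℝ) < √n := Real.sqrt_pos.2 hn0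
  have hLsq : L ≤ √n := by
    have h1 : L = 2 * Real.log (√n) := by
      rw [Real.log_sqrt hn0.le]
      ring
    have h2 : Real.log (√n / 2) ≤ √n / 2 - 1 := Real.log_le_sub_one_of_pos (by positivity)
    rw [Real.log_div hsq.ne' (by norm_num)] at h2
    rw [h1]
    linarith
  have h8 : (8 : ℝ) ≤ √n := by
    rw [Real.le_sqrt (by norm_num) hn0.le]
    linarith
  have hLn : L < n := by
    have : √n < n := by
      have h1 := Real.mul_self_sqrt hn0.le
      nlinarith
    linarith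
  set r := √((n : ℝ) / L) with hr
  have hr0 : 0 < r := Real.sqrt_pos.2 (by positivity)
  have hrr : r * r = n / L := Real.mul_self_sqrt (by positivity)
  have hr28 : (14 / 5 : ℝ) ≤ r := by
    rw [hr, Real.le_sqrt (by norm_num) (by positivity)]
    have h1 : √n ≤ n / L := by
      rw [le_div_iff₀ (by linarith)]
      have h2 := Real.mul_self_sqrt hn0.le
      nlinarith
    have h2 : (14 / 5 : ℝ) ^ 2 ≤ 8 := by norm_num
    linarith
  have hs : √(n * L) = r * L := by
    rw [Real.sqrt_eq_iff_mul_self_eq (by positivity) (by positivity)]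
    have : r * L * (r * L) = (r * r) * (L * L) := by ring
    rw [this, hrr]
    field_simp
  set δ := 1 / r with hδ
  have hδ0 : 0 < δ := by positivity
  have hδn : δ * n = r * L := by
    rw [hδ, one_div, ← div_eq_inv_mul, div_eq_iff hr0.ne']
    have : r * L * r = (r * r) * L := by ring
    rw [this, hrr]
    field_simp
  have hδ1 : δ ≤ 1 / 2 := by
    rw [hδ]
    exact one_div_le_one_div_of_le (by norm_num) (by linarith)
  set k₀ := ⌈r * Real.log (2 * r)⌉₊ with hk
  have hlogr : Real.log (2 * r) ≤ Real.log 2 + L / 2 := by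
    rw [Real.log_mul (by norm_num) hr0.ne', hr, Real.log_sqrt (by positivity),
      Real.log_div hn0.ne' (by linarith)]
    have : 0 ≤ Real.log L := Real.log_nonneg hL1.le
    linarith
  have hlog0 : 0 ≤ Real.log (2 * r) := Real.log_nonneg (by linarith)
  refine ⟨k₀, 1 - δ, by linarith, by linarith, ?_, ?_, ?_, ?_⟩
  · have h1 : 1 - δ ≤ Real.exp (-δ) := by
      have := Real.add_one_le_exp (-δ)
      linarith
    have h2 : (1 - δ) ^ k₀ ≤ δ / 2 := by
      calc (1 - δ) ^ k₀ ≤ Real.exp (-δ) ^ k₀ := pow_le_pow_left₀ (by linarith) h1 _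
        _ = Real.exp (-(δ * k₀)) := by
            rw [← Real.exp_nat_mul]
            congr 1
            ring
        _ ≤ Real.exp (-Real.log (2 * r)) := by
            rw [Real.exp_le_exp]
            have h3 := Nat.le_ceil (r * Real.log (2 * r))
            have h4 := mul_le_mul_of_nonneg_left h3 hδ0.le
            have h5 : δ * (r * Real.log (2 * r)) = Real.log (2 * r) := by
              rw [hδ]
              field_simp
            rw [h5] at h4
            linarith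
        _ = δ / 2 := by
            rw [Real.exp_neg, Real.exp_log (by positivity), hδ]
            field_simp
    have h3 : (1 - δ) ^ k₀ * (1 + (1 - δ)) ≤ δ / 2 * 2 :=
      mul_le_mul h2 (by linarith) (by linarith) (by positivity)
    linarith
  · rw [hs]
    have h1 := Nat.ceil_lt_add_one (mul_nonneg hr0.le hlog0)
    have h2 := mul_le_mul_of_nonneg_left hlogr hr0.le
    have h3 : (14 / 5 : ℝ) * (L / 2 - Real.log 2) ≤ r * (L / 2 - Real.log 2) :=
      mul_le_mul_of_nonneg_right hr28 (by linarith)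
    have h4 : r * (L / 2 - Real.log 2) = r * L - r * (Real.log 2 + L / 2) := by ring
    linarith
  · rw [hs, ← hδn]
    nlinarith
  · rw [hs, ← hδn]
    have h1 : ((1 : ℝ) + (-(1 / 2))) ^ δ ≤ 1 + δ * (-(1 / 2)) :=
      rpow_one_add_le_one_add_mul_self (by norm_num) hδ0.le (by linarith)
    have h2 : (2 : ℝ) ^ (1 - δ) ≤ 1 + (1 - δ) := by
      have h3 : (1 : ℝ) + (-(1 / 2)) = 2⁻¹ := by norm_num
      rw [h3, Real.inv_rpow (by norm_num)] at h1
      rw [Real.rpow_sub (by norm_num), Real.rpow_one, div_eq_mul_inv]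
      linarith
    have h3 : (2 : ℝ) ^ ((n : ℝ) - δ * n) = ((2 : ℝ) ^ (1 - δ)) ^ n := by
      rw [← Real.rpow_natCast, ← Real.rpow_mul (by norm_num)]
      congr 1
      ring
    rw [h3]
    exact pow_le_pow_left₀ (by positivity) h2 n

theorem result (n D : ℕ)
    (hD : Real.exp 1 * ((D : ℝ) ^ 2 + 1) ≤ Real.goldenRatio ^ (n - 1) ∨
      (64 ≤ n ∧ (D : ℝ) ≤ (2 : ℝ) ^ ((n : ℝ) / 2 - √(n * Real.log n))))
    (V : Type) [Fintype V] [DecidableEq V]
    (F : Finset (Finset V)) (hF : ∀ A ∈ F, n ≤ A.card)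
    (hmeet : ∀ A ∈ F, (F.filter fun B => B ≠ A ∧ ¬ Disjoint A B).card ≤ D) :
    Pool.Agent.ChPi.Draw F univ ∅ := by
  rcases hD with hD | ⟨hn, hD⟩
  · have hn1 : 1 ≤ n := by
      by_contra hc
      have h0 : n = 0 := by omega
      rw [h0] at hD
      have h1 : (2 : ℝ) ≤ Real.exp 1 := by
        have := Real.add_one_le_exp (1 : ℝ)
        linarith
      have h2 : (0 : ℝ) ≤ (D : ℝ) ^ 2 := by positivity
      simp only [Nat.zero_sub, pow_zero] at hD
      nlinarith
    have hφ := Real.goldenRatio_sq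
    have hφ1 := Real.one_lt_goldenRatio
    have hφ2 := Real.goldenRatio_lt_two
    set g := Real.goldenRatio with hg
    refine criterion n 1 3 D (g - 1) (by linarith) le_rfl ?_ ?_ ?_ V F hF hmeet
    · have e1 : (g - 1) * g = 1 := by nlinarith
      have e2 : (g - 1) ^ 3 * (1 + (g - 1)) = (g - 1) ^ 2 * ((g - 1) * g) := by ring
      rw [e2, e1]
      nlinarith
    · intro k hk1 hk3
      have e1 : (g - 1) * g = 1 := by nlinarith
      obtain ⟨m, rfl⟩ : ∃ m, k = m + 1 := ⟨k - 1, by omega⟩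
      have e2 : (g - 1) ^ (m + 1 - 1) * (1 + (g - 1)) ^ (m + 1) = ((g - 1) * g) ^ m * g := by
        rw [Nat.add_sub_cancel, mul_pow, pow_succ]
        ring
      rw [e2, e1]
      simp
    · obtain ⟨m, rfl⟩ : ∃ m, n = m + 1 := ⟨n - 1, by omega⟩
      rw [Nat.add_sub_cancel] at hD
      have e1 : (1 : ℝ) + (g - 1) = g := by ring
      rw [e1, pow_one, pow_succ]
      exact mul_le_mul_of_nonneg_right hD (by linarith)
  obtain ⟨k₀, η, hη, hη1, hk, hk₀, hs2, hpow⟩ := params n hn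
  set s := √(n * Real.log n) with hs
  have hb : (1 : ℝ) ≤ (2 : ℝ) ^ ((n : ℝ) / 2 - s) :=
    Real.one_le_rpow (by norm_num) (by linarith)
  have hk1 : 1 ≤ k₀ := by
    by_contra hc
    have h0 : k₀ = 0 := by omega
    rw [h0, pow_zero] at hk
    linarith
  refine criterion n k₀ k₀ D η hη hk1 hk (fun k h1 h2 => absurd h2 (by omega)) ?_ V F hF hmeet
  refine le_trans ?_ hpow
  have h1 : (D : ℝ) ^ 2 ≤ ((2 : ℝ) ^ ((n : ℝ) / 2 - s)) ^ 2 :=
    pow_le_pow_left₀ (by positivity) hD 2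
  have h2 : (1 : ℝ) ≤ ((2 : ℝ) ^ ((n : ℝ) / 2 - s)) ^ 2 := one_le_pow₀ hb
  have h3 : ((2 : ℝ) ^ ((n : ℝ) / 2 - s)) ^ 2 = (2 : ℝ) ^ ((n : ℝ) - 2 * s) := by
    rw [← Real.rpow_natCast, ← Real.rpow_mul (by norm_num)]
    congr 1
    push_cast
    ring
  have h4 : (1 + η) ^ k₀ ≤ (2 : ℝ) ^ (s - 5 / 2) := by
    calc (1 + η) ^ k₀ ≤ (2 : ℝ) ^ k₀ := pow_le_pow_left₀ (by linarith) (by linarith) _
      _ = (2 : ℝ) ^ (k₀ : ℝ) := (Real.rpow_natCast _ _).symm
      _ ≤ _ := Real.rpow_le_rpow_of_exponent_le (by norm_num) (by linarith)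
  have h5 : 2 * Real.exp 1 ≤ (2 : ℝ) ^ (5 / 2 : ℝ) := by
    have e1 : ((2 : ℝ) ^ (5 / 2 : ℝ)) ^ 2 = 32 := by
      rw [← Real.rpow_natCast, ← Real.rpow_mul (by norm_num)]
      norm_num
    have e2 := Real.exp_one_lt_d9
    have e3 : (0 : ℝ) < (2 : ℝ) ^ (5 / 2 : ℝ) := by positivity
    nlinarith [Real.exp_pos 1]
  have h6 : (2 : ℝ) ^ ((n : ℝ) - s) =
      (2 : ℝ) ^ ((n : ℝ) - 2 * s) * (2 : ℝ) ^ (s - 5 / 2) * (2 : ℝ) ^ (5 / 2 : ℝ) := by
    rw [← Real.rpow_add (by norm_num), ← Real.rpow_add (by norm_num)]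
    congr 1
    ring
  rw [h3] at h1 h2
  have p1 : (0 : ℝ) < (2 : ℝ) ^ ((n : ℝ) - 2 * s) := by positivity
  have p2 : (0 : ℝ) < (2 : ℝ) ^ (s - 5 / 2) := by positivity
  rw [h6]
  calc Real.exp 1 * ((D : ℝ) ^ 2 + 1) * (1 + η) ^ k₀
      ≤ Real.exp 1 * (2 * (2 : ℝ) ^ ((n : ℝ) - 2 * s)) * (2 : ℝ) ^ (s - 5 / 2) := by
        refine mul_le_mul (mul_le_mul_of_nonneg_left (by linarith) (Real.exp_pos 1).le) h4
          (by positivity) (by positivity)
    _ = (2 : ℝ) ^ ((n : ℝ) - 2 * s) * (2 : ℝ) ^ (s - 5 / 2) * (2 * Real.exp 1) := by ring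
    _ ≤ _ := mul_le_mul_of_nonneg_left h5 (mul_pos p1 p2).le

end Pool.Agent.Results.MP_289501_co.ChooserPickerExponential
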