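import Pool.Agent.NCX.PAR

set_option autoImplicit false

/-!
# MP_289501_co, part (c): local bound `2 ^ ((1 - o(1)) n)` for the Chooser-Picker game

Let `2 ^ 32 * n ^ 3 * (log₂ n + 1) ≤ f ^ 4`, that is `f ≥ 256 n ^ (3/4) (log₂ n + 1) ^ (1/4)`.  If `F` is
`n`-uniform and each of its members meets at most `D ≤ 2 ^ (n - f)` others, then Picker has a
Strong Draw in the Chooser-Picker game on `F`.  There is no bound on the number of sets or on
their pairwise intersections.
The predicate `Pool.Agent.ChPi.Draw F U P` is the game: `U` is the set of unselected points and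
`P` the set of points Picker has received.
-/

namespace Pool.Agent.Results.MP_289501_co.ChooserPickerNearOptimal

open Finset

theorem result (n f D : ℕ) (hn : 2 ≤ n) (hf : 2 ^ 32 * n ^ 3 * (Nat.log 2 n + 1) ≤ f ^ 4)
    (hDf : D * 2 ^ f ≤ 2 ^ n) (V : Type) [Fintype V] [DecidableEq V] (F : Finset (Finset V))
    (hF : ∀ A ∈ F, A.card = n)
    (hmeet : ∀ A ∈ F, (F.filter fun B => B ≠ A ∧ ¬ Disjoint A B).card ≤ D) :
    Pool.Agent.ChPi.Draw F univ ∅ :=
  NCX.general_draw n f D hn hf hDf F hF hmeet

end Pool.Agent.Results.MP_289501_co.ChooserPickerNearOptimal
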